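import Pool.Agent.Y944.HS.Main

/-!
Adsorbing and interacting self-avoiding walks and polygons in the half space of `ℤ³`: the common
free energy `κ` of walks and polygons is jointly convex, both limits are uniform on squares, and
wherever `κ` has a partial derivative, the densities of wall visits (of contacts) of walks and of
polygons concentrate at this derivative, with exponentially small probability of deviation.

The existence of the common free energy is the starting result `HalfSpace` of this problem.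
-/

set_option autoImplicit false

namespace Pool.Agent.Results.MP_280b4e_pr.UniformDensities

open Filter Topology Pool.Agent.Helper772 Pool.Agent.Y944.HS

/-- Common free energy of walks and polygons, for all `(ζ, γ)`: uniform convergence on squares,
convexity, and exponential concentration of the densities at the partial derivatives. -/
theorem result : ∃ κ : ℝ → ℝ → ℝ,
    (∀ ζ γ : ℝ,
      Tendsto (fun m : ℕ => 1 / ((2 * m : ℕ) : ℝ) * Real.log (Q (2 * m) ζ γ)) atTop (𝓝 (κ ζ γ)) ∧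
      Tendsto (fun n : ℕ => 1 / (n : ℝ) * Real.log (Z n ζ γ)) atTop (𝓝 (κ ζ γ))) ∧
    (∀ R ε : ℝ, 0 < ε → ∃ K : ℕ, ∀ n : ℕ, K ≤ n → ∀ ζ γ : ℝ, |ζ| ≤ R → |γ| ≤ R →
      |1 / ((2 * n : ℕ) : ℝ) * Real.log (Q (2 * n) ζ γ) - κ ζ γ| ≤ ε ∧
      |1 / (n : ℝ) * Real.log (Z n ζ γ) - κ ζ γ| ≤ ε) ∧
    ConvexOn ℝ Set.univ (fun p : ℝ × ℝ => κ p.1 p.2) ∧
    (∀ ζ γ D : ℝ, HasDerivAt (fun z => κ z γ) D ζ →
      Tendsto (fun m : ℕ => 1 / ((2 * m : ℕ) : ℝ) * wallQ (2 * m) ζ γ) atTop (𝓝 D) ∧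
      Tendsto (fun n : ℕ => 1 / (n : ℝ) * wallW n ζ γ) atTop (𝓝 D) ∧
      ∀ ε : ℝ, 0 < ε → ∃ c : ℝ, 0 < c ∧ ∃ K : ℕ, ∀ n : ℕ, K ≤ n →
        probQ (2 * n) ζ γ {p | ε * ((2 * n : ℕ) : ℝ) ≤
          |(visits (verts p.1) : ℝ) - D * ((2 * n : ℕ) : ℝ)|} ≤
            Real.exp (-(c * ((2 * n : ℕ) : ℝ))) ∧
        probW n ζ γ {w | ε * (n : ℝ) ≤ |(visits (Set.range w.1) : ℝ) - D * (n : ℝ)|} ≤
          Real.exp (-(c * (n : ℝ)))) ∧
    (∀ ζ γ D : ℝ, HasDerivAt (fun g => κ ζ g) D γ →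
      Tendsto (fun m : ℕ => 1 / ((2 * m : ℕ) : ℝ) * contQ (2 * m) ζ γ) atTop (𝓝 D) ∧
      Tendsto (fun n : ℕ => 1 / (n : ℝ) * contW n ζ γ) atTop (𝓝 D) ∧
      ∀ ε : ℝ, 0 < ε → ∃ c : ℝ, 0 < c ∧ ∃ K : ℕ, ∀ n : ℕ, K ≤ n →
        probQ (2 * n) ζ γ {p | ε * ((2 * n : ℕ) : ℝ) ≤
          |(contacts (verts p.1) p.1 : ℝ) - D * ((2 * n : ℕ) : ℝ)|} ≤
            Real.exp (-(c * ((2 * n : ℕ) : ℝ))) ∧
        probW n ζ γ {w | ε * (n : ℝ) ≤
          |(contacts (Set.range w.1) (edges w.1) : ℝ) - D * (n : ℝ)|} ≤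
            Real.exp (-(c * (n : ℝ)))) :=
  Pool.Agent.Y944.HS.main

end Pool.Agent.Results.MP_280b4e_pr.UniformDensities
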